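import Pool.Agent.helper57.DH.SpecL

set_option autoImplicit false

open Filter Topology MeasureTheory
open scoped commutatorElement

namespace Pool.Agent.helper90.DH

open Pool.Agent.helper64.D2

theorem LSQ_sqrt (K : ℝ) (hK : 0 ≤ K) (n k : ℕ) (h : k ≤ n + 1) : √(K / 2 ^ n) ≤ √K / 2 ^ (k / 4) := by
  rw [Real.sqrt_div hK]
  apply div_le_div_of_nonneg_left (Real.sqrt_nonneg _) (by positivity)
  apply Real.le_sqrt_of_sq_le
  rw [← pow_mul]
  exact pow_le_pow_right₀ (by norm_num) (by omega)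

theorem LSQ_zero : BM (fun _ => (0 : ℝ)) := ⟨measurable_const, ⟨0, fun x => by simp⟩, fun x _ => rfl⟩

theorem LSQ_BMsum (hLBM : LBM_stmt) (I : Finset ℕ) (f : ℕ → ℝ → ℝ) (hf : ∀ i ∈ I, BM (f i)) : BM (fun x => ∑ i ∈ I, f i x) := by
  classical
  induction I using Finset.induction_on with
  | empty => simpa using LSQ_zero
  | insert a s ha ih =>
      have h1 := hf a (Finset.mem_insert_self _ _)
      have h2 := ih (fun i hi => hf i (Finset.mem_insert_of_mem hi))
      have e : (fun x => ∑ i ∈ insert a s, f i x) = fun x => f a x + ∑ i ∈ s, f i x := by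
        funext x
        rw [Finset.sum_insert ha]
      rw [e]
      exact (hLBM.1 _ _ h1 h2).1

theorem LSQ_Es0 (s : ℕ) (x : ℝ) : Es s (fun _ => (0 : ℝ)) x = 0 := by simp [Es]

theorem LSQ_EsSum (hLBM : LBM_stmt) (hLEA : LEA_stmt) (s : ℕ) (I : Finset ℕ) (f : ℕ → ℝ → ℝ) (hf : ∀ i ∈ I, BM (f i)) (x : ℝ) :
    Es s (fun z => ∑ i ∈ I, f i z) x = ∑ i ∈ I, Es s (f i) x := by
  classical
  induction I using Finset.induction_on with
  | empty => simpa using LSQ_Es0 s x
  | insert a t ha ih =>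
      have h1 := hf a (Finset.mem_insert_self _ _)
      have h2 := ih (fun i hi => hf i (Finset.mem_insert_of_mem hi))
      have h3 := LSQ_BMsum hLBM t f (fun i hi => hf i (Finset.mem_insert_of_mem hi))
      have e : (fun x => ∑ i ∈ insert a t, f i x) = fun x => f a x + ∑ i ∈ t, f i x := by
        funext x
        rw [Finset.sum_insert ha]
      rw [e, (hLEA.2.2.2.1 s _ _ h1 h3 x).1, h2, Finset.sum_insert ha]

theorem LSQ_MopSum (q : ℕ) (c : ℕ → DD) (I : Finset ℕ) (f : ℕ → ℝ → ℝ) (x : ℝ) :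
    Mop q c (fun z => ∑ r ∈ I, f r z) x = ∑ r ∈ I, Mop q c (f r) x := by
  unfold Mop
  rw [Finset.sum_comm, Finset.sum_div]

theorem LSQ_avg (hLCS : LCS_stmt) (q : ℕ) (h : ℕ → ℝ → ℝ) (B : ℝ) (hB : 0 ≤ B) (hh : ∀ i < q, BM (h i))
    (hb : ∀ i < q, √(nsq (h i)) ≤ B) : √(nsq (fun x => (∑ i ∈ Finset.range q, h i x) / q)) ≤ B := by
  have hq : (0 : ℝ) ≤ 1 / (q : ℝ) := by positivity
  have e : (fun x => (∑ i ∈ Finset.range q, h i x) / (q : ℝ)) = fun x => (1 / (q : ℝ)) * (∑ i ∈ Finset.range q, h i x) := by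
    funext x
    ring
  rw [e, hLCS.2.2.2.2 (1 / (q : ℝ)) (fun x => ∑ i ∈ Finset.range q, h i x), Real.sqrt_mul (by positivity), Real.sqrt_sq hq]
  have h1 := hLCS.2.2.1 (Finset.range q) h (fun i hi => hh i (Finset.mem_range.1 hi))
  have h2 : ∑ i ∈ Finset.range q, √(nsq (h i)) ≤ ∑ i ∈ Finset.range q, B := Finset.sum_le_sum fun i hi => hb i (Finset.mem_range.1 hi)
  rw [Finset.sum_const, Finset.card_range, nsmul_eq_mul] at h2
  have h3 : 1 / (q : ℝ) * √(nsq (fun x => ∑ i ∈ Finset.range q, h i x)) ≤ 1 / (q : ℝ) * ((q : ℝ) * B) :=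
    mul_le_mul_of_nonneg_left (h1.trans h2) hq
  refine h3.trans ?_
  rcases Nat.eq_zero_or_pos q with h0 | h0
  · subst h0
    simpa using hB
  · have : (q : ℝ) ≠ 0 := by positivity
    rw [← mul_assoc, one_div, inv_mul_cancel₀ this, one_mul]

/-- the linear functionals `1 - E_s` and `E_s` of an average. -/
theorem LSQ_EsMop (hLBM : LBM_stmt) (hLEA : LEA_stmt) (q : ℕ) (c : ℕ → DD) (s : ℕ) (f : ℝ → ℝ) (hf : BM f) (x : ℝ) :
    Es s (Mop q c f) x = (∑ i ∈ Finset.range q, Es s (fun z => f (ev (c i) z)) x) / q := by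
  have h0 : ∀ i ∈ Finset.range q, BM (fun z => f (ev (c i) z)) := fun i _ => hLBM.2.2.2.2.1 (c i) f hf
  have e : Mop q c f = fun z => (1 / (q : ℝ)) * (∑ i ∈ Finset.range q, (fun (i : ℕ) (z : ℝ) => f (ev (c i) z)) i z) := by
    funext z
    unfold Mop
    ring
  rw [e, hLEA.2.2.2.2.1 s (1 / (q : ℝ)) (fun z => ∑ i ∈ Finset.range q, (fun (i : ℕ) (z : ℝ) => f (ev (c i) z)) i z) x,
    LSQ_EsSum hLBM hLEA s (Finset.range q) _ h0 x]
  ring

theorem LSQ (hLOA : LOA_stmt) (hLOB : LOB_stmt) (hLYN : LYN_stmt) (hLSM : LSM_stmt) (hLBM : LBM_stmt) (hLCS : LCS_stmt)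
    (hLEA : LEA_stmt) (hLEP : LEP_stmt) (hLLV : LLV_stmt) : LSQ_stmt := by
  obtain ⟨KA, hKA, hA⟩ := hLOA
  obtain ⟨KB, hKB, hB⟩ := hLOB
  obtain ⟨C, hCdef⟩ : ∃ C : ℝ, C = √(max KA KB) := ⟨_, rfl⟩
  have hm1 : (1 : ℝ) ≤ max KA KB := hKA.trans (le_max_left _ _)
  have hm0 : (0 : ℝ) ≤ max KA KB := by linarith
  have hC1 : 1 ≤ C := by
    rw [hCdef]
    exact Real.le_sqrt_of_sq_le (by simpa using hm1)
  obtain ⟨K, hK, hS⟩ := hLSM C hC1
  refine ⟨4 * K ^ 2, by nlinarith, ?_⟩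
  intro lam q c s0 N hl hl2 hs10 hsN hSz hG y hy hy2
  have hLg : 0 ≤ Lg lam := by
    unfold Lg
    have : 0 ≤ Real.log (1 / lam) := Real.log_nonneg (by rw [le_div_iff₀ hl]; linarith)
    linarith
  obtain ⟨w, hwdef⟩ : ∃ w : ℕ → ℝ, w = fun k => min lam (C / 2 ^ (k / 4)) := ⟨_, rfl⟩
  obtain ⟨a, hadef⟩ : ∃ a : ℕ → ℝ, a = fun r => √(nsq (Ds r y)) := ⟨_, rfl⟩
  have hw0 : ∀ k, 0 ≤ w k := by
    intro k
    rw [hwdef]
    exact le_min hl.le (by positivity)
  have ha0 : ∀ r, 0 ≤ a r := by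
    intro r
    rw [hadef]
    exact Real.sqrt_nonneg _
  have hnn : ∀ f : ℝ → ℝ, 0 ≤ nsq f := fun f => integral_nonneg fun x => sq_nonneg _
  have hWs : ∀ n, ∑ k ∈ Finset.range n, w k ≤ K * lam * Lg lam := by
    intro n
    rw [hwdef]
    exact (hS lam n hl hl2).1
  have hD : ∀ r, BM (Ds r y) := fun r => ((hLLV y hy).1 r).2.1
  have hMD : ∀ r, BM (Mop q c (Ds r y)) := fun r => hLBM.2.2.2.2.2 q c _ (hD r)
  have hgap : ∀ r, s0 ≤ r → r < N → √(nsq (Mop q c (Ds r y))) ≤ lam * a r := by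
    intro r h1 h2
    have h3 := hG r h1 h2 (Ds r y) ((hLLV y hy).1 r).1 (((hLLV y hy).2.2.2 r (by omega)).1 hy2) ((hLLV y hy).1 r).2.2
    have h4 := Real.sqrt_le_sqrt h3
    rw [Real.sqrt_mul (by positivity), Real.sqrt_sq hl.le] at h4
    rw [hadef]
    exact h4
  have hsq : ∀ f : ℝ → ℝ, √(nsq f) ^ 2 = nsq f := fun f => Real.sq_sqrt (hnn f)
  have hbess : ∑ r ∈ Finset.Ico s0 N, a r ^ 2 ≤ nsq y := by
    have h1 := ((hLLV y hy).2.1 s0 N hsN).2.2.2.2.2
    refine le_trans (le_of_eq ?_) h1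
    refine Finset.sum_congr rfl fun r _ => ?_
    rw [hadef]
    exact hsq _
  -- the common ending
  have hend : ∀ (F : ℕ → ℝ → ℝ) (J : ℕ → Finset ℕ) (G : ℕ → ℕ → ℝ → ℝ), (∀ s ∈ Finset.Icc s0 N, J s ⊆ Finset.Ico s0 N) →
      (∀ s ∈ Finset.Icc s0 N, F s = fun x => ∑ r ∈ J s, G s r x) →
      (∀ s ∈ Finset.Icc s0 N, ∀ r ∈ J s, BM (G s r) ∧ √(nsq (G s r)) ≤ w ((s - r) + (r - s)) * a r) →
      ∑ s ∈ Finset.Icc s0 N, nsq (F s) ≤ 4 * K ^ 2 * (lam * Lg lam) ^ 2 * nsq y := by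
    intro F J G hJ hF hb
    have h1 : ∀ s ∈ Finset.Icc s0 N, nsq (F s) ≤ (∑ r ∈ Finset.Ico s0 N, w ((s - r) + (r - s)) * a r) ^ 2 := by
      intro s hs
      rw [← hsq (F s)]
      refine pow_le_pow_left₀ (Real.sqrt_nonneg _) ?_ 2
      rw [hF s hs]
      refine (hLCS.2.2.1 (J s) (G s) (fun r hr => (hb s hs r hr).1)).trans ?_
      refine (Finset.sum_le_sum fun r hr => (hb s hs r hr).2).trans ?_
      exact Finset.sum_le_sum_of_subset_of_nonneg (hJ s hs) fun r _ _ => mul_nonneg (hw0 _) (ha0 _)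
    refine (Finset.sum_le_sum h1).trans ?_
    refine ((hLYN w a (K * lam * Lg lam) (Finset.Icc s0 N) (Finset.Ico s0 N) hw0 ha0 hWs).1).trans ?_
    have h2 : (2 * (K * lam * Lg lam)) ^ 2 = 4 * K ^ 2 * (lam * Lg lam) ^ 2 := by ring
    rw [h2]
    exact mul_le_mul_of_nonneg_left hbess (by positivity)
  constructor
  · refine hend _ (fun s => Finset.Ico s0 s) (fun s r x => Mop q c (Ds r y) x - Es s (Mop q c (Ds r y)) x) ?_ ?_ ?_
    · intro s hs
      exact Finset.Ico_subset_Ico_right (Finset.mem_Icc.1 hs).2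
    · intro s hs
      funext x
      have e1 : us s0 s y = fun x => ∑ r ∈ Finset.Ico s0 s, (fun r => Ds r y) r x := by
        funext x
        exact ((hLLV y hy).2.1 s0 s (Finset.mem_Icc.1 hs).1).2.2.1 x
      have e2 : Mop q c (us s0 s y) = fun x => ∑ r ∈ Finset.Ico s0 s, (fun r => Mop q c (Ds r y)) r x := by
        funext x
        rw [e1]
        exact LSQ_MopSum q c _ _ x
      rw [e2, LSQ_EsSum hLBM hLEA s _ _ (fun r _ => hMD r) x, ← Finset.sum_sub_distrib]
    · intro s hs r hr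
      have hs1 := Finset.mem_Icc.1 hs
      have hr1 := Finset.mem_Ico.1 hr
      have hbm : BM (fun x => Mop q c (Ds r y) x - Es s (Mop q c (Ds r y)) x) :=
        (hLBM.1 _ _ (hMD r) (hLBM.2.2.2.1 s _ (hMD r)).1).2.1
      refine ⟨hbm, ?_⟩
      have hrs : (s - r) + (r - s) = s - r := by omega
      rw [hrs, hwdef]
      show √(nsq (fun x => Mop q c (Ds r y) x - Es s (Mop q c (Ds r y)) x)) ≤ min lam (C / 2 ^ ((s - r) / 4)) * a r
      rw [min_mul_of_nonneg _ _ (ha0 r)]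
      refine le_min ?_ ?_
      · refine le_trans (Real.sqrt_le_sqrt ?_) (hgap r hr1.1 (by omega))
        have h1 := hLEP.2.1 s (Mop q c (Ds r y)) (hMD r)
        have h2 := hnn (Es s (Mop q c (Ds r y)))
        linarith
      · have e3 : (fun x => Mop q c (Ds r y) x - Es s (Mop q c (Ds r y)) x) =
            fun x => (∑ i ∈ Finset.range q, (fun (i : ℕ) (x : ℝ) => Ds r y (ev (c i) x) - Es s (fun z => Ds r y (ev (c i) z)) x) i x) / q := by
          funext x
          rw [LSQ_EsMop hLBM hLEA q c s _ (hD r) x]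
          unfold Mop
          rw [← sub_div, ← Finset.sum_sub_distrib]
        rw [e3]
        refine LSQ_avg hLCS q _ _ (by have := ha0 r; positivity) ?_ ?_
        · intro i hi
          have h1 := hLBM.2.2.2.2.1 (c i) _ (hD r)
          exact (hLBM.1 _ _ h1 (hLBM.2.2.2.1 s _ h1).1).2.1
        · intro i hi
          have hSi : Sz (c i) (1 / 50) := fun x => (hSz i hi x).trans (by norm_num)
          have h1 := hA (c i) (Ds r y) (r + 1) s hSi ((hLLV y hy).1 r).1 (hD r) (by omega)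
          have h2 := Real.sqrt_le_sqrt h1
          rw [Real.sqrt_mul (by positivity)] at h2
          refine h2.trans ?_
          rw [hadef]
          refine mul_le_mul_of_nonneg_right ?_ (Real.sqrt_nonneg _)
          refine (LSQ_sqrt KA (by linarith) (s - (r + 1)) (s - r) (by omega)).trans ?_
          rw [hCdef]
          exact div_le_div_of_nonneg_right (Real.sqrt_le_sqrt (le_max_left _ _)) (by positivity)
  · refine hend _ (fun s => Finset.Ico s N) (fun s r x => Es s (Mop q c (Ds r y)) x) ?_ ?_ ?_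
    · intro s hs
      exact Finset.Ico_subset_Ico_left (Finset.mem_Icc.1 hs).1
    · intro s hs
      have hs1 := Finset.mem_Icc.1 hs
      funext x
      have e1 : (fun x => us s0 N y x - us s0 s y x) = fun x => ∑ r ∈ Finset.Ico s N, (fun r => Ds r y) r x := by
        funext x
        rw [((hLLV y hy).2.1 s0 s hs1.1).2.2.1 x, ((hLLV y hy).2.1 s0 N hsN).2.2.1 x,
          ← Finset.sum_Ico_consecutive (fun r => Ds r y x) hs1.1 hs1.2]
        ring
      have e2 : Mop q c (fun x => us s0 N y x - us s0 s y x) = fun x => ∑ r ∈ Finset.Ico s N, (fun r => Mop q c (Ds r y)) r x := by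
        funext x
        rw [e1]
        exact LSQ_MopSum q c _ _ x
      rw [e2, LSQ_EsSum hLBM hLEA s _ _ (fun r _ => hMD r) x]
    · intro s hs r hr
      have hs1 := Finset.mem_Icc.1 hs
      have hr1 := Finset.mem_Ico.1 hr
      have hbm : BM (fun x => Es s (Mop q c (Ds r y)) x) := (hLBM.2.2.2.1 s _ (hMD r)).1
      refine ⟨hbm, ?_⟩
      have hrs : (s - r) + (r - s) = r - s := by omega
      rw [hrs, hwdef]
      show √(nsq (fun x => Es s (Mop q c (Ds r y)) x)) ≤ min lam (C / 2 ^ ((r - s) / 4)) * a r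
      rw [min_mul_of_nonneg _ _ (ha0 r)]
      refine le_min ?_ ?_
      · refine le_trans (Real.sqrt_le_sqrt ?_) (hgap r (by omega) hr1.2)
        have h1 := hLEP.2.1 s (Mop q c (Ds r y)) (hMD r)
        have h2 := hnn (fun x => Mop q c (Ds r y) x - Es s (Mop q c (Ds r y)) x)
        show nsq (Es s (Mop q c (Ds r y))) ≤ _
        linarith
      · have e3 : (fun x => Es s (Mop q c (Ds r y)) x) =
            fun x => (∑ i ∈ Finset.range q, (fun (i : ℕ) (x : ℝ) => Es s (fun z => Ds r y (ev (c i) z)) x) i x) / q := by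
          funext x
          rw [LSQ_EsMop hLBM hLEA q c s _ (hD r) x]
        rw [e3]
        refine LSQ_avg hLCS q _ _ (by have := ha0 r; positivity) ?_ ?_
        · intro i hi
          have h1 := hLBM.2.2.2.2.1 (c i) _ (hD r)
          exact (hLBM.2.2.2.1 s _ h1).1
        · intro i hi
          have h1 := hB (c i) (Ds r y) r s (hSz i hi) (hD r) ((hLLV y hy).1 r).2.2 hr1.1
          have h2 := Real.sqrt_le_sqrt h1
          rw [Real.sqrt_mul (by positivity)] at h2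
          refine h2.trans ?_
          rw [hadef]
          refine mul_le_mul_of_nonneg_right ?_ (Real.sqrt_nonneg _)
          refine (LSQ_sqrt KB (by linarith) (r - s) (r - s) (by omega)).trans ?_
          rw [hCdef]
          exact div_le_div_of_nonneg_right (Real.sqrt_le_sqrt (le_max_right _ _)) (by positivity)

end Pool.Agent.helper90.DH
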