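import Pool.Agent.helper5.DH.Spec

/-!
# dh:DIQ (helper43): the derivative inequality
-/

set_option autoImplicit false

open Complex Metric Set Filter Topology MeasureTheory
open Pool.Agent.helper98.ILF Pool.Agent.helper16.Multibrot
open HY (UD T S hd UN RM VV SG Orb fz)

noncomputable section

namespace DH

theorem DIQ (hTUB : TUB_stmt) (hBTP : BTP_stmt) (hHDI : HY.HDI_stmt) : DIQ_stmt := by
  intro n c Φ b hT k t p hp B w hB hB1 hw hF
  obtain ⟨χ, hχ, hχ0, -, hder⟩ := hTUB n c Φ b hT k t p hp B w hB hB1 hw hF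
  obtain ⟨-, -, -, h4⟩ := (hBTP n c Φ b hT).2 k t p hp
  obtain ⟨hdF, -, -, -⟩ := h4 t le_rfl
  have h0 : (0 : ℂ) ∈ UD := mem_ball_self one_pos
  have hχd : DifferentiableAt ℂ χ 0 := hχ.dif.differentiableAt (isOpen_ball.mem_nhds h0)
  have hFd : DifferentiableAt ℂ (bt Φ n c k t p t) (χ 0) := by
    rw [hχ0]
    exact hdF.differentiableAt (isOpen_ball.mem_nhds hw)
  have hc : deriv (fun x => bt Φ n c k t p t (χ x)) 0 = deriv (bt Φ n c k t p t) w * deriv χ 0 := by
    have h := (hFd.hasDerivAt.comp (0 : ℂ) hχd.hasDerivAt).deriv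
    rw [hχ0] at h
    exact h
  have hsp : ‖deriv χ 0‖ ≤ 1 - ‖w‖ ^ 2 := by
    have h := hHDI.2.1 χ (fun z => z) 0 hχ.dif hχ.map differentiableAt_id (by simpa using h0)
    have hw1 : ‖w‖ < 1 := by simpa [UD] using hw
    have hpos : 0 < 1 - ‖w‖ ^ 2 := by nlinarith [norm_nonneg w]
    simp only [HY.hd, hχ0] at h
    rw [div_le_iff₀ hpos] at h
    simpa using h
  rw [hc, norm_mul] at hder
  exact hder.trans (mul_le_mul_of_nonneg_left hsp (norm_nonneg _))

end DH
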